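import Mathlib
import Pool.Agent.Work.MP_67c61c_pr.Defs
import Pool.Agent.Work.MP_67c61c_pr.Main
import Pool.Agent.Work.MP_67c61c_pr.Ergodic

/-!
# Pseudo spectral gap of the lazy version of an ergodic chain (full answer)

We prove `γ_ps(L_α(M)) ≥ (1 - α)/5 * γ_ps(M)` for every ergodic chain `M` on `d ≥ 2` states and
every `α ∈ (0,1)`, so `f(α, g) = (1 - α) g / 5` answers the question, independently of `d`.

Idea: if `γ_ps(M) = γ((M^k)†)/k` and `λ = 1 - γ((M^k)†)`, then `‖M^j f‖² ≤ λ ‖f‖²` for `j ≥ k` and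
mean-zero `f`. Expanding `L_α(M)^n` by the binomial theorem, convexity of the square and
`1{j<k} ≤ 2^(k-1-j)` give `‖L_α(M)^n f‖² ≤ (λ + (1-λ) 2^(k-1) (1-(1-α)/2)^n) ‖f‖²`, and one takes
`n = ⌈2k/(1-α)⌉`.
-/

open Matrix Pool.Agent.Work.MP_67c61c_pr

namespace Pool.Agent.Results.MP_67c61c_pr.LazyPseudoGap

theorem lazy_isErgodic {d : ℕ} {M : Matrix (Fin d) (Fin d) ℝ} (h : IsErgodic M) {α : ℝ}
    (h0 : 0 < α) (h1 : α < 1) : IsErgodic (lazyChain α M) := by
  have hL : ∀ i j, lazyChain α M i j = α * (1 : Matrix (Fin d) (Fin d) ℝ) i j + (1 - α) * M i j := by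
    intro i j
    simp [lazyChain]
  have h1' : 0 < 1 - α := by linarith
  have hone : ∀ i j, 0 ≤ (1 : Matrix (Fin d) (Fin d) ℝ) i j := by
    intro i j; rw [Matrix.one_apply]; split_ifs <;> norm_num
  have hnn : ∀ i j, 0 ≤ lazyChain α M i j := by
    intro i j
    rw [hL]
    have := hone i j
    have := h.nonneg i j
    positivity
  refine ⟨hnn, ?_, ?_, ?_⟩
  · intro i
    simp_rw [hL]
    rw [Finset.sum_add_distrib, ← Finset.mul_sum, ← Finset.mul_sum, h.row_sum]
    simp [Matrix.one_apply]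
  · have hpow : ∀ (n : ℕ) (i j : Fin d), (1 - α) ^ n * (M ^ n) i j ≤ ((lazyChain α M) ^ n) i j := by
      intro n
      induction n with
      | zero => intro i j; simp
      | succ n ih =>
        intro i j
        rw [pow_succ, pow_succ, pow_succ, Matrix.mul_apply, Matrix.mul_apply, Finset.mul_sum]
        apply Finset.sum_le_sum
        intro k _
        have h2 := ih i k
        have h3 : (1 - α) * M k j ≤ lazyChain α M k j := by
          rw [hL]
          have := mul_nonneg h0.le (hone k j)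
          linarith
        have h4 : 0 ≤ (1 - α) * M k j := mul_nonneg h1'.le (h.nonneg k j)
        have h5 : 0 ≤ ((lazyChain α M) ^ n) i k := Matrix.pow_apply_nonneg hnn n i k
        calc (1 - α) ^ n * (1 - α) * ((M ^ n) i k * M k j)
            = ((1 - α) ^ n * (M ^ n) i k) * ((1 - α) * M k j) := by ring
          _ ≤ ((lazyChain α M) ^ n) i k * lazyChain α M k j :=
              mul_le_mul h2 h3 h4 h5
    intro i j
    obtain ⟨n, hn, hpos⟩ := h.irreducible i j
    exact ⟨n, hn, lt_of_lt_of_le (mul_pos (pow_pos h1' n) hpos) (hpow n i j)⟩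
  · intro i p hp
    have h2 := hp 1 le_rfl (by
      rw [pow_one, hL]
      have := h.nonneg i i
      simp only [Matrix.one_apply_eq, mul_one]
      have := mul_nonneg h1'.le this
      linarith)
    exact Nat.dvd_one.1 h2

theorem lazy_isStationary {d : ℕ} {M : Matrix (Fin d) (Fin d) ℝ} {π : Fin d → ℝ}
    (hM : IsErgodic M) (h : IsStationary π M) {α : ℝ}
    (h0 : 0 < α) (h1 : α < 1) : IsStationary π (lazyChain α M) :=
  ⟨h.nonneg, h.sum_one, ((hM.good h).lazy h0.le h1.le).invariant⟩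

/-- **Full answer to Q1** (yes, with a linear and dimension-free `f`): there is a function
`f : (0,1) × (0,1] → (0,∞)`, namely `f(α,g) = (1-α)g/5`, such that for every `d ≥ 2`, every ergodic
(irreducible and aperiodic) row-stochastic `M` on `d` states with stationary distribution `π`, and
every `α ∈ (0,1)`: the pseudo spectral gaps of `M` and of its `α`-lazy version are attained maxima,
`γ_ps(M) ∈ (0,1]`, and `f(α, γ_ps(M)) ≤ γ_ps(L_α(M))`. -/
theorem result :
    ∃ f : ℝ → ℝ → ℝ,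
      (∀ α g, f α g = (1 - α) / 5 * g) ∧
      (∀ α ∈ Set.Ioo (0 : ℝ) 1, ∀ g ∈ Set.Ioc (0 : ℝ) 1, 0 < f α g) ∧
      ∀ (d : ℕ) (M : Matrix (Fin d) (Fin d) ℝ) (π : Fin d → ℝ),
        2 ≤ d → IsErgodic M → IsStationary π M →
          IsGreatest (gapSet π M) (pseudoGap π M) ∧ pseudoGap π M ∈ Set.Ioc (0 : ℝ) 1 ∧
          ∀ α ∈ Set.Ioo (0 : ℝ) 1,
            IsGreatest (gapSet π (lazyChain α M)) (pseudoGap π (lazyChain α M)) ∧
            f α (pseudoGap π M) ≤ pseudoGap π (lazyChain α M) := by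
  refine ⟨fun α g => (1 - α) / 5 * g, fun _ _ => rfl, ?_, ?_⟩
  · rintro α ⟨h0, h1⟩ g ⟨hg, -⟩
    have : 0 < 1 - α := by linarith
    positivity
  · intro d M π hd hM hπ
    obtain ⟨hpos, hle, hgr⟩ := hM.isGreatest hπ hd
    refine ⟨hgr, ⟨hpos, hle⟩, ?_⟩
    rintro α ⟨h0, h1⟩
    exact ⟨((lazy_isErgodic hM h0 h1).isGreatest (lazy_isStationary hM hπ h0 h1) hd).2.2,
      main_bound (hM.good hπ) hd h0 h1⟩

end Pool.Agent.Results.MP_67c61c_pr.LazyPseudoGap
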